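import Mathlib
import Pool.Agent.Helper47.Zero.Defs

/-!
# Sections of arbitrary varieties: the definitions used in the statement
-/

universe u v w

open CategoryTheory AlgebraicGeometry Limits

namespace Pool.Agent.Helper97.SA

open Pool.Agent.Helper10 Pool.Agent.Helper10.SmProjVar Pool.Agent.Helper47.Chow
open Pool.Agent.Helper47.Zero

noncomputable section

variable {K : Type u} [Field K] {L : Type v} [Field L] [CharZero L]
  {W : WeilCohomology.{u, v, w} K L}

/-- The morphism `j × j : X × X ⟶ M × M`. -/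
def square {X M : SmProjVar K} (j : X.toOver ⟶ M.toOver) :
    (X.prod X).toOver ⟶ (M.prod M).toOver :=
  lift (fst X X ≫ j) (snd X X ≫ j)

/-- `γ` lies in the two-sided ideal of the ring `CH^d(X × X)`, `d = dim X`, generated by the
restrictions `(j × j)^* z` of the classes `z ∈ CH^d(M × M)`. -/
def InIdeal (C : ChowTheory W) {X M : SmProjVar K} (j : X.toOver ⟶ M.toOver)
    (γ : CH (X.prod X)) : Prop :=
  γ ∈ Submodule.span ℚ {x | ∃ a ∈ CHi (X.prod X) X.dim, ∃ b ∈ CHi (X.prod X) X.dim,
    ∃ z ∈ CHi (M.prod M) X.dim, x = C.comp (C.comp a (C.ops.pull (square j) z)) b}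

/-- The diagonal of `M` is, in `CH^n(M × M)`, `n = dim M`, a combination of
* exterior products of classes of `M`,
* compositions of correspondences `M → V → M`, where the homologically trivial
  self-correspondences of `V` form a nilpotent ring,
* compositions of `b ∈ CH^{n - s}(M × D)` and `a ∈ CH^{dim D + s}(D × M)`, for arbitrary `D`. -/
def Decomposes (C : ChowTheory W) (M : SmProjVar K) (s : ℕ) : Prop :=
  C.Δ M ∈ Submodule.span ℚ
    ({x | ∃ i j, i + j = M.dim ∧ ∃ b ∈ CHi M j, ∃ a ∈ CHi M i,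
        x = C.ops.mul (M.prod M) (C.ops.pull (fst M M) b) (C.ops.pull (snd M M) a)} ∪
      {x | ∃ V : SmProjVar K, NilRing C V ∧ ∃ e e', e + e' = M.dim + V.dim ∧
        ∃ p ∈ CHi (M.prod V) e, ∃ q ∈ CHi (V.prod M) e', x = C.comp p q} ∪
      {x | ∃ D : SmProjVar K, ∃ e, e + s = M.dim ∧
        ∃ b ∈ CHi (M.prod D) e, ∃ a ∈ CHi (D.prod M) (D.dim + s), x = C.comp b a})

/-- A homologically trivial divisor class on `D × D'` is the sum of pull-backs of divisor classes
of `D` and `D'`. -/
def HasSeesaw (C : ChowTheory W) : Prop :=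
  ∀ D D' : SmProjVar K, ∀ g ∈ CHi (D.prod D') 1, C.ops.cl _ g = 0 →
    ∃ a ∈ CHi D 1, ∃ b ∈ CHi D' 1, g = C.ops.pull (fst D D') a + C.ops.pull (snd D D') b

/-- The cohomology of `X` in the degrees different from `dim X` is spanned by the classes of
algebraic cycles. -/
def AlgOff (C : ChowTheory W) (X : SmProjVar K) : Prop :=
  ∀ k, k ≠ X.dim → ∀ x, InDeg W k x → x ∈ Submodule.span L {z | ∃ i, 2 * i = k ∧
    ∃ a ∈ CHi X i, C.ops.cl X a = z}

end

end Pool.Agent.Helper97.SA
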