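import Mathlib
import Pool.Agent.Helper11.Murre.S1

/-!
# The transpose of a correspondence
-/

universe u v w

open CategoryTheory AlgebraicGeometry Limits

namespace Pool.Agent.Helper97.SA

open Pool.Agent.Helper10 Pool.Agent.Helper10.SmProjVar Pool.Agent.Helper47.Chow
open Pool.Agent.Helper11.Murre

noncomputable section

variable {K : Type u} [Field K] {L : Type v} [Field L] [CharZero L]
  {W : WeilCohomology.{u, v, w} K L} {C : ChowTheory W} {X Y Z : SmProjVar K}

/-- The exchange of the factors. -/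
def swapM (X Y : SmProjVar K) : (X.prod Y).toOver ⟶ (Y.prod X).toOver :=
  lift (snd X Y) (fst X Y)

@[simp] lemma swapM_swapM (X Y : SmProjVar K) : swapM X Y ≫ swapM Y X = 𝟙 _ := by
  apply prod_ext <;> simp [swapM]

instance isIso_swapM (X Y : SmProjVar K) : IsIso (swapM X Y) :=
  ⟨swapM Y X, swapM_swapM X Y, swapM_swapM Y X⟩

instance flat_swapM (X Y : SmProjVar K) : Flat (swapM X Y).left := by
  have : IsIso (swapM X Y).left := inferInstanceAs (IsIso ((Over.forget _).map (swapM X Y)))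
  infer_instance

/-- The transpose of a correspondence. -/
def tr (C : ChowTheory W) {X Y : SmProjVar K} (β : CH (X.prod Y)) : CH (Y.prod X) :=
  C.pull (swapM Y X) β

lemma tr_mem {i : ℕ} {β : CH (X.prod Y)} (h : β ∈ CHi (X.prod Y) i) :
    tr C β ∈ CHi (Y.prod X) i := C.pull_mem _ _ _ h

lemma tr_add (β γ : CH (X.prod Y)) : tr C (β + γ) = tr C β + tr C γ := map_add _ _ _

lemma tr_smul (q : ℚ) (β : CH (X.prod Y)) : tr C (q • β) = q • tr C β := map_smul _ _ _

lemma tr_zero : tr C (0 : CH (X.prod Y)) = 0 := map_zero _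

lemma tr_tr (β : CH (X.prod Y)) : tr C (tr C β) = β := by
  unfold tr
  rw [← C.pull_comp, swapM_swapM, C.pull_id]

lemma cl_tr {β : CH (X.prod Y)} (h : C.cl _ β = 0) : C.cl _ (tr C β) = 0 := by
  unfold tr
  rw [C.cl_pull, h, ChowTheory.pull_zero]

omit [CharZero L] in
lemma isPullback_diag (X : SmProjVar K) :
    IsPullback (𝟙 X.toOver) (diag X) (diag X) (swapM X X) := by
  refine isPullback_mk _ _ _ _ ?_ ?_ ?_
  · apply prod_ext <;> simp [swapM, Pool.Agent.Helper47.Chow.diag]
  · intro T s t h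
    have h1 := congrArg (· ≫ fst X X) h
    have h2 := congrArg (· ≫ snd X X) h
    simp only [swapM, Pool.Agent.Helper47.Chow.diag, Category.assoc, lift_fst, lift_snd, Category.comp_id] at h1 h2
    refine ⟨s, by simp, ?_⟩
    apply prod_ext
    · simp [Pool.Agent.Helper47.Chow.diag, h2]
    · simp [Pool.Agent.Helper47.Chow.diag, h1]
  · intro T l l' h1 h2
    simpa using h1

lemma tr_Δ (X : SmProjVar K) : tr C (C.Δ X) = C.Δ X := by
  unfold tr
  rw [ChowTheory.Δ_apply, C.base_change (diag X) (swapM X X) (𝟙 _) (diag X) (isPullback_diag X)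
    inferInstance, C.pull_one]

/-- `(z, y, x) ↦ (x, y, z)`. -/
def rev (X Y Z : SmProjVar K) : (Z.prod (Y.prod X)).toOver ⟶ (X.prod (Y.prod Z)).toOver :=
  lift (snd Z (Y.prod X) ≫ snd Y X) (lift (snd Z (Y.prod X) ≫ fst Y X) (fst Z (Y.prod X)))

omit [CharZero L] in
lemma isPullback_rev (X Y Z : SmProjVar K) :
    IsPullback (rev X Y Z) (p13 Z Y X) (p13 X Y Z) (swapM Z X) := by
  refine isPullback_mk _ _ _ _ ?_ ?_ ?_
  · apply prod_ext
    · simp [swapM, p13, rev]
    · simp only [swapM, p13, rev, Category.assoc, lift_snd, lift_fst]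
      rw [lift_snd_assoc, lift_snd]
  · intro T s t h
    have h1 := congrArg (· ≫ fst X Z) h
    have h2 := congrArg (· ≫ snd X Z) h
    simp only [swapM, p13, Category.assoc, lift_fst, lift_snd] at h1 h2
    refine ⟨liftT (s ≫ snd _ _ ≫ snd _ _) (liftT (s ≫ snd _ _ ≫ fst _ _) (s ≫ fst _ _)), ?_, ?_⟩
    · apply prod_ext
      · simp [rev]
      · apply prod_ext <;> simp [rev]
    · apply prod_ext
      · simp [p13, h2]
      · simp [p13, h1]
  · intro T l l' h1 h2
    have e1 := congrArg (· ≫ snd X (Y.prod Z) ≫ snd Y Z) h1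
    have e2 := congrArg (· ≫ snd X (Y.prod Z) ≫ fst Y Z) h1
    have e3 := congrArg (· ≫ fst X (Y.prod Z)) h1
    simp only [rev, Category.assoc, lift_fst, lift_snd, lift_snd_assoc] at e1 e2 e3
    apply prod_ext
    · exact e1
    · apply prod_ext
      · simpa using e2
      · simpa using e3

omit [CharZero L] in
lemma rev_p23 (X Y Z : SmProjVar K) : rev X Y Z ≫ p23 X Y Z = p12 Z Y X ≫ swapM Z Y := by
  apply prod_ext <;> simp [swapM, p12, rev]

omit [CharZero L] in
lemma rev_p12 (X Y Z : SmProjVar K) : rev X Y Z ≫ p12 X Y Z = p23 Z Y X ≫ swapM Y X := by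
  apply prod_ext
  · simp [swapM, p12, rev]
  · simp only [swapM, p12, rev, Category.assoc, lift_snd, lift_fst]
    rw [lift_snd_assoc, lift_fst]

lemma tr_comp (β : CH (X.prod Y)) (γ : CH (Y.prod Z)) :
    tr C (C.comp β γ) = C.comp (tr C γ) (tr C β) := by
  unfold tr
  rw [ChowTheory.comp_apply, ChowTheory.comp_apply,
    C.base_change (p13 X Y Z) (swapM Z X) (rev X Y Z) (p13 Z Y X) (isPullback_rev X Y Z)
    inferInstance, C.pull_mul, ← C.pull_comp, ← C.pull_comp, ← C.pull_comp, ← C.pull_comp,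
    C.mul_comm, rev_p23, rev_p12]

end

end Pool.Agent.Helper97.SA
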