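import Mathlib
import Pool.Agent.Helper97.SA.Tr
import Pool.Agent.Helper11.Murre.S4
import Pool.Agent.Helper47.Desc.Dec

/-!
# Correspondences of negative codimension, exterior products
-/

universe u v w

open CategoryTheory AlgebraicGeometry Limits

namespace Pool.Agent.Helper97.SA

open Pool.Agent.Helper10 Pool.Agent.Helper10.SmProjVar Pool.Agent.Helper47.Chow
open Pool.Agent.Helper11.Murre Pool.Agent.Helper47.Desc

noncomputable section

variable {K : Type u} [Field K] {L : Type v} [Field L] [CharZero L]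
  {W : WeilCohomology.{u, v, w} K L} {C : ChowTheory W} {X Y Z D : SmProjVar K}

lemma comp_eq_zero {m n : ℕ} {β : CH (X.prod Y)} {γ : CH (Y.prod Z)}
    (hβ : β ∈ CHi (X.prod Y) m) (hγ : γ ∈ CHi (Y.prod Z) n) (h : m + n < Y.dim) :
    C.comp β γ = 0 := by
  refine push_eq_zero C _ (m + n) ?_ _
    (C.mul_mem _ _ _ _ _ (C.pull_mem _ _ _ hβ) (C.pull_mem _ _ _ hγ))
  change m + n + (Z.dim + X.dim) < Z.dim + Y.dim + X.dim
  omega

lemma act_eq_zero {m i : ℕ} {γ : CH (X.prod Y)} (hγ : γ ∈ CHi (X.prod Y) m) {a : CH X}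
    (ha : a ∈ CHi X i) (h : i + m < X.dim) : C.act γ a = 0 := by
  refine push_eq_zero C _ (i + m) ?_ _
    (C.mul_mem _ _ _ _ _ (C.pull_mem _ _ _ ha) hγ)
  change i + m + Y.dim < Y.dim + X.dim
  omega

lemma tr_extProd (b : CH X) (a : CH Y) : tr C (extProd C b a) = extProd C a b := by
  have h1 : swapM Y X ≫ fst X Y = snd Y X := by simp [swapM]
  have h2 : swapM Y X ≫ snd X Y = fst Y X := by simp [swapM]
  unfold tr extProd
  rw [C.pull_mul, ← C.pull_comp, ← C.pull_comp, h1, h2, C.mul_comm]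

/-- `(b × a) ∘ α = (ᵗα_* b) × a`. -/
lemma comp_extProd_left (α : CH (Z.prod X)) (b : CH X) (a : CH Y) :
    C.comp α (extProd C b a) = extProd C (C.act (tr C α) b) a := by
  rw [← tr_tr (C := C) (C.comp α (extProd C b a)), tr_comp, tr_extProd, comp_extProd,
    tr_extProd]

lemma extProd_zero_left (a : CH Y) : extProd C (0 : CH X) a = 0 := by
  unfold extProd
  rw [map_zero, map_zero]
  rfl

/-- The exterior products `b × a` in `CH^i(X × Y)`. -/
lemma comp_comp_extProd {n : ℕ} {α : CH (X.prod Y)} {β : CH (Y.prod X)} {b a : CH Y} {i j m : ℕ}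
    (hα : α ∈ CHi (X.prod Y) m) (hβ : β ∈ CHi (Y.prod X) n) (hb : b ∈ CHi Y j) (ha : a ∈ CHi Y i)
    (h : m + n + i + j = X.dim + 2 * Y.dim) :
    C.comp (C.comp α (extProd C b a)) β ∈ decomposable C X := by
  rw [comp_extProd_left, comp_extProd]
  by_cases h1 : j + m < Y.dim
  · rw [act_eq_zero (C := C) (tr_mem hα) hb h1, extProd_zero_left]
    exact Submodule.zero_mem _
  by_cases h2 : i + n < Y.dim
  · rw [act_eq_zero (C := C) hβ ha h2, extProd_zero]
    exact Submodule.zero_mem _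
  refine Submodule.subset_span ⟨i + n - Y.dim, j + m - Y.dim, by omega, _,
    act_mem' C _ (tr_mem hα) b hb (l := j + m - Y.dim) (by omega), _,
    act_mem' C _ hβ a ha (l := i + n - Y.dim) (by omega), rfl⟩

end

end Pool.Agent.Helper97.SA
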