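import Mathlib
import Pool.Agent.Helper47.Spread2.Final2

/-!
# The ideal generated by the restrictions of correspondences of the ambient variety
-/

universe u v w

open CategoryTheory AlgebraicGeometry Limits

namespace Pool.Agent.Helper97.SA

open Pool.Agent.Helper10 Pool.Agent.Helper10.SmProjVar Pool.Agent.Helper47.Chow
open Pool.Agent.Helper47.Desc Pool.Agent.Helper47.Spread

noncomputable section

variable {K : Type u} [Field K] {L : Type v} [Field L] [CharZero L]
  {W : WeilCohomology.{u, v, w} K L}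

/-- The two-sided ideal of the ring of self-correspondences of degree zero of `X` generated by the
restrictions `(j × j)^* z` of the classes `z ∈ CH^d(M × M)`, `d = dim X`. -/
def restrSpan (C : ChowTheory W) {X M : SmProjVar K} (j : X.toOver ⟶ M.toOver) :
    Submodule ℚ (CH (X.prod X)) :=
  Submodule.span ℚ {x | ∃ a ∈ CHi (X.prod X) X.dim, ∃ b ∈ CHi (X.prod X) X.dim,
    ∃ z ∈ CHi (M.prod M) X.dim, x = C.comp (C.comp a (C.ops.pull (sqHom j) z)) b}

variable {C : ChowTheory W} {X M : SmProjVar K} (j : X.toOver ⟶ M.toOver)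

lemma pull_mem_restrSpan {z : CH (M.prod M)} (hz : z ∈ CHi (M.prod M) X.dim) :
    C.ops.pull (sqHom j) z ∈ restrSpan C j :=
  Submodule.subset_span ⟨C.Δ X, Δ_mem C X, C.Δ X, Δ_mem C X, z, hz, by
    rw [C.Δ_comp, C.comp_Δ]⟩

lemma comp_restrSpan {c γ : CH (X.prod X)} (hc : c ∈ CHi (X.prod X) X.dim)
    (hγ : γ ∈ restrSpan C j) : C.comp c γ ∈ restrSpan C j := by
  refine Submodule.span_induction (p := fun γ _ => C.comp c γ ∈ restrSpan C j) ?_ ?_ ?_ ?_ hγ
  · rintro _ ⟨a, ha, b, hb, z, hz, rfl⟩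
    refine Submodule.subset_span ⟨C.comp c a, C.comp_mem _ _ hc ha, b, hb, z, hz, ?_⟩
    rw [← C.comp_assoc, ← C.comp_assoc]
  · rw [C.comp_zero]
    exact Submodule.zero_mem _
  · intro x y _ _ hx hy
    rw [C.comp_add]
    exact Submodule.add_mem _ hx hy
  · intro q x _ hx
    rw [C.comp_smul]
    exact Submodule.smul_mem _ _ hx

lemma restrSpan_comp {c γ : CH (X.prod X)} (hc : c ∈ CHi (X.prod X) X.dim)
    (hγ : γ ∈ restrSpan C j) : C.comp γ c ∈ restrSpan C j := by
  refine Submodule.span_induction (p := fun γ _ => C.comp γ c ∈ restrSpan C j) ?_ ?_ ?_ ?_ hγ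
  · rintro _ ⟨a, ha, b, hb, z, hz, rfl⟩
    refine Submodule.subset_span ⟨a, ha, C.comp b c, C.comp_mem _ _ hb hc, z, hz, ?_⟩
    rw [C.comp_assoc]
  · rw [C.zero_comp]
    exact Submodule.zero_mem _
  · intro x y _ _ hx hy
    rw [C.add_comp]
    exact Submodule.add_mem _ hx hy
  · intro q x _ hx
    rw [C.smul_comp]
    exact Submodule.smul_mem _ _ hx

/-- The ideal of `Corr C X` given by `restrSpan`. -/
def restrIdeal (C : ChowTheory W) {X M : SmProjVar K} (j : X.toOver ⟶ M.toOver) :
    Ideal (Corr C X) where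
  carrier := {γ | γ.val ∈ restrSpan C j}
  add_mem' {γ β} hγ hβ := by
    change (γ + β).val ∈ restrSpan C j
    rw [Corr.add_val]
    exact Submodule.add_mem _ hγ hβ
  zero_mem' := by
    change (0 : Corr C X).val ∈ restrSpan C j
    rw [Corr.zero_val]
    exact Submodule.zero_mem _
  smul_mem' c γ hγ := by
    change (c * γ).val ∈ restrSpan C j
    rw [Corr.mul_val]
    exact restrSpan_comp j c.2 hγ

lemma mem_restrIdeal {γ : Corr C X} : γ ∈ restrIdeal C j ↔ γ.val ∈ restrSpan C j := Iff.rfl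

variable {F : Type u} [Field F] [Algebra F K] {M₀ : SmProjVar F} {r : ℕ} {I : Type} [Fintype I]

/-- The ideal is stable under the group of semilinear automorphisms. -/
lemma restrSpan_stable (hC : IsEquivariant C) (pM : M.toOver.left ⟶ M₀.toOver.left)
    (hM : IsPullback pM M.toOver.hom M₀.toOver.hom (specMap F K)) [IsClosedImmersion j.left]
    (a : I → K) (g : SemiAut X) (hg : g ∈ galGroup (F := F) a (j.left ≫ pM))
    (γ : CH (X.prod X)) (hγ : γ ∈ restrSpan C j) :
    (Pool.Agent.Helper47.Desc.sq g).chow γ ∈ restrSpan C j := by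
  obtain ⟨h, hb, hc⟩ := exists_semiAut_base pM hM j a g hg
  refine Submodule.span_induction
    (p := fun γ _ => (Pool.Agent.Helper47.Desc.sq g).chow γ ∈ restrSpan C j) ?_ ?_ ?_ ?_ hγ
  · rintro _ ⟨a, ha, b, hb', z, hz, rfl⟩
    rw [chow_comp hC, chow_comp hC, hC.pull (Pool.Agent.Helper47.Desc.sq g) h (sqHom j) hb hc]
    exact Submodule.subset_span ⟨_, chow_mem _ _ _ ha, _, chow_mem _ _ _ hb', _,
      chow_mem h _ _ hz, rfl⟩
  · rw [map_zero]
    exact Submodule.zero_mem _
  · intro x y _ _ hx hy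
    rw [map_add]
    exact Submodule.add_mem _ hx hy
  · intro q x _ hx
    rw [map_smul]
    exact Submodule.smul_mem _ _ hx

end

end Pool.Agent.Helper97.SA
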