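import Mathlib

/-!
# Elements of nilpotent two-sided ideals
-/

namespace Pool.Agent.Helper97.SA

variable {R : Type*} [Ring R]

/-- `I` is a nilpotent two-sided ideal. -/
structure NilIdeal (I : Ideal R) : Prop where
  two : ∀ x ∈ I, ∀ b, x * b ∈ I
  nil : ∃ N, ∀ l : List R, l.length = N → (∀ x ∈ l, x ∈ I) → l.prod = 0

lemma list_congr {I I' : Ideal R} (hI : ∀ x ∈ I, ∀ b, x * b ∈ I) (l : List R)
    (h : ∀ x ∈ l, x ∈ I ⊔ I') :
    ∃ l' : List R, l'.length = l.length ∧ (∀ x ∈ l', x ∈ I') ∧ l.prod - l'.prod ∈ I := by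
  induction l with
  | nil => exact ⟨[], rfl, by simp, by simp⟩
  | cons x l ih =>
    obtain ⟨l', h1, h2, h3⟩ := ih (fun y hy => h y (List.mem_cons_of_mem _ hy))
    obtain ⟨a, ha, b, hb, rfl⟩ := Submodule.mem_sup.1 (h x List.mem_cons_self)
    refine ⟨b :: l', by simp [h1], ?_, ?_⟩
    · intro y hy
      rcases List.mem_cons.1 hy with rfl | hy
      · exact hb
      · exact h2 y hy
    · rw [List.prod_cons, List.prod_cons]
      have h4 : (a + b) * l.prod - b * l'.prod = a * l.prod + b * (l.prod - l'.prod) := by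
        noncomm_ring
      rw [h4]
      exact I.add_mem (hI a ha _) (I.mul_mem_left _ h3)

lemma list_blocks {I J : Ideal R} (n : ℕ)
    (h : ∀ l : List R, l.length = n → (∀ x ∈ l, x ∈ J) → l.prod ∈ I) (m : ℕ) :
    ∀ l : List R, l.length = m * n → (∀ x ∈ l, x ∈ J) →
      ∃ l' : List R, l'.length = m ∧ (∀ x ∈ l', x ∈ I) ∧ l.prod = l'.prod := by
  induction m with
  | zero =>
    intro l hl _
    rw [zero_mul] at hl
    exact ⟨[], rfl, by simp, by rw [List.length_eq_zero_iff.1 hl]⟩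
  | succ m ih =>
    intro l hl hx
    have h1 : (l.take n).prod ∈ I := by
      refine h _ ?_ fun x hx' => hx x (List.mem_of_mem_take hx')
      rw [List.length_take, hl]
      exact min_eq_left (Nat.le_mul_of_pos_left n (Nat.succ_pos m))
    obtain ⟨l', h2, h3, h4⟩ := ih (l.drop n) (by
      rw [List.length_drop, hl, Nat.succ_mul, Nat.add_sub_cancel])
      fun x hx' => hx x (List.mem_of_mem_drop hx')
    refine ⟨(l.take n).prod :: l', by simp [h2], ?_, ?_⟩
    · intro y hy
      rcases List.mem_cons.1 hy with rfl | hy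
      · exact h1
      · exact h3 y hy
    · rw [List.prod_cons, ← h4, ← List.prod_append, List.take_append_drop]

theorem NilIdeal.sup {I I' : Ideal R} (h : NilIdeal I) (h' : NilIdeal I') :
    NilIdeal (I ⊔ I') := by
  obtain ⟨n, hn⟩ := h.nil
  obtain ⟨n', hn'⟩ := h'.nil
  refine ⟨?_, n * n', ?_⟩
  · intro x hx b
    obtain ⟨a, ha, c, hc, rfl⟩ := Submodule.mem_sup.1 hx
    rw [add_mul]
    exact Submodule.add_mem_sup (h.two a ha b) (h'.two c hc b)
  · intro l hl hx
    obtain ⟨l', h2, h3, h4⟩ := list_blocks (I := I) (J := I ⊔ I') n' (by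
      intro l hl hx
      obtain ⟨l', h1, h2, h3⟩ := list_congr h.two l hx
      rw [hn' l' (h1.trans hl) h2, sub_zero] at h3
      exact h3) n l hl hx
    rw [h4]
    exact hn l' h2 h3

/-- The element `x` lies in a nilpotent two-sided ideal. -/
def NilMem (x : R) : Prop := ∃ I : Ideal R, NilIdeal I ∧ x ∈ I

theorem NilMem.add {x y : R} (hx : NilMem x) (hy : NilMem y) : NilMem (x + y) := by
  obtain ⟨I, hI, hx⟩ := hx
  obtain ⟨J, hJ, hy⟩ := hy
  exact ⟨I ⊔ J, hI.sup hJ, Submodule.add_mem_sup hx hy⟩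

theorem nilMem_zero : NilMem (0 : R) := by
  refine ⟨⊥, ⟨?_, 1, ?_⟩, Submodule.zero_mem _⟩
  · intro x hx b
    rw [(Submodule.mem_bot R).1 hx, zero_mul]
    exact Submodule.zero_mem _
  · intro l hl hx
    obtain ⟨a, rfl⟩ := List.length_eq_one_iff.1 hl
    rw [List.prod_singleton]
    exact (Submodule.mem_bot R).1 (hx a List.mem_cons_self)

theorem NilMem.mul_left {x : R} (hx : NilMem x) (a : R) : NilMem (a * x) := by
  obtain ⟨I, hI, hx⟩ := hx
  exact ⟨I, hI, I.mul_mem_left a hx⟩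

theorem NilMem.isNilpotent {x : R} (hx : NilMem x) : IsNilpotent x := by
  obtain ⟨I, hI, hx⟩ := hx
  obtain ⟨N, hN⟩ := hI.nil
  refine ⟨N, ?_⟩
  rw [← List.prod_replicate]
  exact hN _ List.length_replicate fun y hy => (List.eq_of_mem_replicate hy) ▸ hx

end Pool.Agent.Helper97.SA
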