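import Mathlib
import Pool.Agent.Helper97.SA.NilIdeal
import Pool.Agent.Helper97.SA.Small
import Pool.Agent.Helper47.Spread.Final

/-!
# Correspondences which factor through a variety with nilpotent correspondences
-/

universe u v w

open CategoryTheory AlgebraicGeometry Limits

namespace Pool.Agent.Helper97.SA

open Pool.Agent.Helper10 Pool.Agent.Helper10.SmProjVar Pool.Agent.Helper47.Chow
open Pool.Agent.Helper11.Murre Pool.Agent.Helper47.Desc
open Pool.Agent.Helper47.Spread (NilRing)

noncomputable section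

variable {K : Type u} [Field K] {L : Type v} [Field L] [CharZero L]
  {W : WeilCohomology.{u, v, w} K L} (C : ChowTheory W) (X V : SmProjVar K)

/-- The homologically trivial self-correspondences of degree zero. -/
def HTriv (γ : CH (V.prod V)) : Prop := γ ∈ CHi (V.prod V) V.dim ∧ C.ops.cl _ γ = 0

/-- Correspondences which factor through `V` and `m` homologically trivial correspondences
of `V`. -/
def chain (e m : ℕ) : Submodule ℚ (CH (X.prod X)) :=
  Submodule.span ℚ {x | ∃ e', e + e' = X.dim + V.dim ∧ ∃ p ∈ CHi (X.prod V) e,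
    ∃ q ∈ CHi (V.prod X) e', ∃ l : List (CH (V.prod V)), l.length = m ∧
      (∀ σ ∈ l, HTriv C V σ) ∧ x = C.comp (C.comp p (compList C V l)) q}

variable {C X V}

lemma comp_mem_chain {e e' : ℕ} (h : e + e' = X.dim + V.dim) {p : CH (X.prod V)}
    (hp : p ∈ CHi (X.prod V) e) {q : CH (V.prod X)} (hq : q ∈ CHi (V.prod X) e') :
    C.comp p q ∈ chain C X V e 0 := by
  refine Submodule.subset_span ⟨e', h, p, hp, q, hq, [], rfl, by simp, ?_⟩
  change C.comp p q = C.comp (C.comp p (C.Δ V)) q
  rw [C.comp_Δ]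

lemma chain_comp {e m : ℕ} {w c : CH (X.prod X)} (hw : w ∈ chain C X V e m)
    (hc : c ∈ CHi (X.prod X) X.dim) : C.comp w c ∈ chain C X V e m := by
  refine Submodule.span_induction (p := fun w _ => C.comp w c ∈ chain C X V e m) ?_ ?_ ?_ ?_ hw
  · rintro _ ⟨e', he, p, hp, q, hq, l, hl, hσ, rfl⟩
    refine Submodule.subset_span ⟨e', he, p, hp, C.comp q c, ?_, l, hl, hσ, ?_⟩
    · exact comp_mem' C _ _ hq hc rfl
    · rw [C.comp_assoc]
  · rw [C.zero_comp]
    exact Submodule.zero_mem _
  · intro x y _ _ hx hy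
    rw [C.add_comp]
    exact Submodule.add_mem _ hx hy
  · intro q x _ hx
    rw [C.smul_comp]
    exact Submodule.smul_mem _ _ hx

lemma comp_chain {e m : ℕ} {w c : CH (X.prod X)} (hw : w ∈ chain C X V e m)
    (hc : c ∈ CHi (X.prod X) X.dim) : C.comp c w ∈ chain C X V e m := by
  refine Submodule.span_induction (p := fun w _ => C.comp c w ∈ chain C X V e m) ?_ ?_ ?_ ?_ hw
  · rintro _ ⟨e', he, p, hp, q, hq, l, hl, hσ, rfl⟩
    refine Submodule.subset_span ⟨e', he, C.comp c p, ?_, q, hq, l, hl, hσ, ?_⟩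
    · exact comp_mem' C _ _ hc hp (by omega)
    · rw [← C.comp_assoc, ← C.comp_assoc]
  · rw [C.comp_zero]
    exact Submodule.zero_mem _
  · intro x y _ _ hx hy
    rw [C.comp_add]
    exact Submodule.add_mem _ hx hy
  · intro q x _ hx
    rw [C.comp_smul]
    exact Submodule.smul_mem _ _ hx

lemma chain_step {e m : ℕ} {w y x : CH (X.prod X)} (hw : w ∈ chain C X V e m)
    (hy : HTriv C X y) (hx : x ∈ chain C X V e 0) :
    C.comp (C.comp w y) x ∈ chain C X V e (m + 1) := by
  refine Submodule.span_induction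
    (p := fun w _ => C.comp (C.comp w y) x ∈ chain C X V e (m + 1)) ?_ ?_ ?_ ?_ hw
  · rintro _ ⟨e₁, he₁, p, hp, q, hq, l, hl, hσ, rfl⟩
    refine Submodule.span_induction
      (p := fun x _ => C.comp (C.comp (C.comp (C.comp p (compList C V l)) q) y) x ∈
        chain C X V e (m + 1)) ?_ ?_ ?_ ?_ hx
    · rintro _ ⟨e₂, he₂, p', hp', q', hq', l', hl', -, rfl⟩
      obtain rfl := List.length_eq_zero_iff.1 hl'
      have h1 : C.comp q y ∈ CHi (V.prod X) e₁ := comp_mem' C _ _ hq hy.1 rfl
      refine Submodule.subset_span ⟨e₂, he₂, p, hp, q', hq',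
        C.comp (C.comp q y) p' :: l, by simp [hl], ?_, ?_⟩
      · intro σ hσ'
        rcases List.mem_cons.1 hσ' with rfl | hσ'
        · refine ⟨comp_mem' C _ _ h1 hp' (by omega), ?_⟩
          exact C.cl_comp_of_left _ _ (C.cl_comp_of_right _ _ hy.2)
        · exact hσ σ hσ'
      · change C.comp (C.comp (C.comp (C.comp p (compList C V l)) q) y)
          (C.comp (C.comp p' (C.Δ V)) q') =
          C.comp (C.comp p (C.comp (compList C V l) (C.comp (C.comp q y) p'))) q'
        rw [C.comp_Δ]
        simp only [C.comp_assoc]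
    · rw [C.comp_zero]
      exact Submodule.zero_mem _
    · intro x x' _ _ hx hx'
      rw [C.comp_add]
      exact Submodule.add_mem _ hx hx'
    · intro c x _ hx
      rw [C.comp_smul]
      exact Submodule.smul_mem _ _ hx
  · rw [C.zero_comp, C.zero_comp]
    exact Submodule.zero_mem _
  · intro x x' _ _ hx hx'
    rw [C.add_comp, C.add_comp]
    exact Submodule.add_mem _ hx hx'
  · intro c x _ hx
    rw [C.smul_comp, C.smul_comp]
    exact Submodule.smul_mem _ _ hx

/-- The ideal of the homologically trivial correspondences which factor through `V`. -/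
def viaIdeal (C : ChowTheory W) (X V : SmProjVar K) (e : ℕ) : Ideal (Corr C X) where
  carrier := {γ | γ.val ∈ chain C X V e 0 ∧ C.ops.cl _ γ.val = 0}
  add_mem' {γ β} hγ hβ := by
    refine ⟨Submodule.add_mem _ hγ.1 hβ.1, ?_⟩
    rw [Corr.add_val, C.linear.cl_add, hγ.2, hβ.2, add_zero]
  zero_mem' := by
    refine ⟨Submodule.zero_mem _, ?_⟩
    exact map_zero (C.cl _)
  smul_mem' c γ hγ := by
    refine ⟨chain_comp hγ.1 c.2, ?_⟩
    exact C.cl_comp_of_left _ _ hγ.2

lemma nilIdeal_viaIdeal (e : ℕ) (hV : NilRing C V) : NilIdeal (viaIdeal C X V e) := by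
  obtain ⟨N, hN⟩ := hV
  refine ⟨fun γ hγ b => ⟨comp_chain hγ.1 b.2, C.cl_comp_of_right _ _ hγ.2⟩, 2 * N + 1, ?_⟩
  have key : ∀ m, ∀ l : List (Corr C X), l.length = 2 * m + 1 →
      (∀ x ∈ l, x ∈ viaIdeal C X V e) → l.prod.val ∈ chain C X V e m := by
    intro m
    induction m with
    | zero =>
      intro l hl hx
      obtain ⟨a, rfl⟩ := List.length_eq_one_iff.1 (by omega)
      rw [List.prod_singleton]
      exact (hx a List.mem_cons_self).1
    | succ m ih =>
      intro l hl hx
      match l, hl, hx with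
      | x :: y :: l, hl, hx =>
        rw [List.prod_cons, List.prod_cons, Corr.mul_val, Corr.mul_val]
        have h1 := ih l (by simp only [List.length_cons] at hl; omega)
          (fun z hz => hx z (List.mem_cons_of_mem _ (List.mem_cons_of_mem _ hz)))
        have hy := hx y (List.mem_cons_of_mem _ List.mem_cons_self)
        exact chain_step h1 ⟨y.2, hy.2⟩ (hx x List.mem_cons_self).1
  intro l hl hx
  apply Corr.ext
  have h1 : chain C X V e N ≤ ⊥ := by
    refine Submodule.span_le.2 ?_
    rintro _ ⟨e', he, p, hp, q, hq, l, hl, hσ, rfl⟩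
    rw [hN l hl hσ, C.comp_zero, C.zero_comp]
    exact Submodule.zero_mem _
  exact (Submodule.mem_bot ℚ).1 (h1 (key N l hl hx))

/-- The ideal of the homologically trivial decomposable correspondences. -/
def decIdeal (C : ChowTheory W) (X : SmProjVar K) : Ideal (Corr C X) where
  carrier := {γ | γ.val ∈ decomposable C X ∧ C.ops.cl _ γ.val = 0}
  add_mem' {γ β} hγ hβ := by
    refine ⟨Submodule.add_mem _ hγ.1 hβ.1, ?_⟩
    rw [Corr.add_val, C.linear.cl_add, hγ.2, hβ.2, add_zero]
  zero_mem' := by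
    refine ⟨Submodule.zero_mem _, ?_⟩
    exact map_zero (C.cl _)
  smul_mem' c γ hγ := by
    refine ⟨?_, C.cl_comp_of_left _ _ hγ.2⟩
    refine Submodule.span_induction (p := fun z _ => C.comp z c.val ∈ decomposable C X)
      ?_ ?_ ?_ ?_ hγ.1
    · rintro _ ⟨i, j, hij, b, hb, a, ha, rfl⟩
      have h1 : C.comp (extProd C b a) c.val ∈ decomposable C X := by
        rw [comp_extProd]
        exact Submodule.subset_span ⟨i, j, hij, b, hb, _,
          act_mem' C _ c.2 a ha rfl, rfl⟩
      exact h1
    · rw [C.zero_comp]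
      exact Submodule.zero_mem _
    · intro x y _ _ hx hy
      rw [C.add_comp]
      exact Submodule.add_mem _ hx hy
    · intro q x _ hx
      rw [C.smul_comp]
      exact Submodule.smul_mem _ _ hx

lemma comp_dec {z c : CH (X.prod X)} (hc : c ∈ CHi (X.prod X) X.dim)
    (hz : z ∈ decomposable C X) : C.comp c z ∈ decomposable C X := by
  refine Submodule.span_induction (p := fun z _ => C.comp c z ∈ decomposable C X) ?_ ?_ ?_ ?_ hz
  · rintro _ ⟨i, j, hij, b, hb, a, ha, rfl⟩
    have h1 : C.comp c (extProd C b a) ∈ decomposable C X := by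
      rw [comp_extProd_left]
      exact Submodule.subset_span ⟨i, j, hij, _, act_mem' C _ (tr_mem hc) b hb rfl, a, ha, rfl⟩
    exact h1
  · rw [C.comp_zero]
    exact Submodule.zero_mem _
  · intro x y _ _ hx hy
    rw [C.comp_add]
    exact Submodule.add_mem _ hx hy
  · intro q x _ hx
    rw [C.comp_smul]
    exact Submodule.smul_mem _ _ hx

lemma nilIdeal_decIdeal : NilIdeal (decIdeal C X) := by
  refine ⟨fun γ hγ b => ⟨comp_dec b.2 hγ.1, C.cl_comp_of_right _ _ hγ.2⟩, 3, ?_⟩
  intro l hl hx
  obtain ⟨a, b, c, rfl⟩ := List.length_eq_three.1 hl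
  have ha := hx a (by simp)
  have hb := hx b (by simp)
  have hc := hx c (by simp)
  rw [List.prod_cons, List.prod_cons, List.prod_singleton]
  apply Corr.ext
  rw [Corr.mul_val, Corr.mul_val]
  exact comp_dec_hom_dec hc.1 ha.1 b.2 hb.2

end

end Pool.Agent.Helper97.SA
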