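import Mathlib
import Pool.Agent.Helper97.SA.Via
import Pool.Agent.Helper97.SA.Ideal

/-!
# Inserting a decomposition of the diagonal of the ambient variety
-/

universe u v w

open CategoryTheory AlgebraicGeometry Limits

namespace Pool.Agent.Helper97.SA

open Pool.Agent.Helper10 Pool.Agent.Helper10.SmProjVar Pool.Agent.Helper47.Chow
open Pool.Agent.Helper11.Murre Pool.Agent.Helper47.Desc
open Pool.Agent.Helper47.Spread (NilRing sqHom)

noncomputable section

variable {K : Type u} [Field K] {L : Type v} [Field L] [CharZero L]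
  {W : WeilCohomology.{u, v, w} K L}

/-- Correspondences of degree zero which factor through varieties with nilpotent
correspondences. -/
def tPart (C : ChowTheory W) (X : SmProjVar K) : Submodule ℚ (CH (X.prod X)) :=
  Submodule.span ℚ {x | ∃ V : SmProjVar K, NilRing C V ∧ ∃ e e', e + e' = X.dim + V.dim ∧
    ∃ p ∈ CHi (X.prod V) e, ∃ q ∈ CHi (V.prod X) e', x = C.comp p q}

/-- Correspondences of degree zero `X → D → X` whose first factor lies in `CH^{dim X - s}`. -/
def dPart (C : ChowTheory W) (X : SmProjVar K) (s : ℕ) : Submodule ℚ (CH (X.prod X)) :=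
  Submodule.span ℚ {x | ∃ D : SmProjVar K, ∃ e, e + s = X.dim ∧
    ∃ b ∈ CHi (X.prod D) e, ∃ a ∈ CHi (D.prod X) (D.dim + s), x = C.comp b a}

/-- The transposes of the elements of `dPart`. -/
def dPartT (C : ChowTheory W) (X : SmProjVar K) (s : ℕ) : Submodule ℚ (CH (X.prod X)) :=
  Submodule.span ℚ {x | ∃ D : SmProjVar K, ∃ e, e + s = X.dim ∧
    ∃ a ∈ CHi (X.prod D) (D.dim + s), ∃ b ∈ CHi (D.prod X) e, x = C.comp a b}

variable {C : ChowTheory W} {X M : SmProjVar K}

lemma insert_right {s : ℕ} {α : CH (X.prod M)} {β : CH (M.prod X)}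
    (hα : α ∈ CHi (X.prod M) X.dim) (hβ : β ∈ CHi (M.prod X) M.dim) {δ : CH (M.prod M)}
    (hδ : δ ∈ decomposable C M ⊔ tPart C M ⊔ dPart C M s) :
    C.comp (C.comp α δ) β ∈ decomposable C X ⊔ tPart C X ⊔ dPart C X s := by
  have hlin : ∀ (P : Submodule ℚ (CH (M.prod M))) (Q : Submodule ℚ (CH (X.prod X)))
      (S : Set (CH (M.prod M))), P = Submodule.span ℚ S →
      (∀ x ∈ S, C.comp (C.comp α x) β ∈ Q) → ∀ x ∈ P, C.comp (C.comp α x) β ∈ Q := by
    rintro P Q S rfl h x hx
    refine Submodule.span_induction (p := fun x _ => C.comp (C.comp α x) β ∈ Q) ?_ ?_ ?_ ?_ hx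
    · intro x hx
      exact h x hx
    · rw [C.comp_zero, C.zero_comp]
      exact Submodule.zero_mem _
    · intro x y _ _ hx hy
      rw [C.comp_add, C.add_comp]
      exact Submodule.add_mem _ hx hy
    · intro q x _ hx
      rw [C.comp_smul, C.smul_comp]
      exact Submodule.smul_mem _ _ hx
  obtain ⟨w, hw, z, hz, rfl⟩ := Submodule.mem_sup.1 hδ
  obtain ⟨x, hx, y, hy, rfl⟩ := Submodule.mem_sup.1 hw
  rw [C.comp_add, C.comp_add, C.add_comp, C.add_comp]
  refine Submodule.add_mem_sup (Submodule.add_mem_sup ?_ ?_) ?_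
  · refine hlin _ _ _ rfl ?_ x hx
    rintro _ ⟨i, j, hij, b, hb, a, ha, rfl⟩
    exact comp_comp_extProd (C := C) hα hβ hb ha (by omega)
  · refine hlin _ _ _ rfl ?_ y hy
    rintro _ ⟨V, hV, e, e', he, p, hp, q, hq, rfl⟩
    have h1 : C.comp (C.comp α (C.comp p q)) β = C.comp (C.comp α p) (C.comp q β) := by
      simp only [C.comp_assoc]
    rw [h1]
    by_cases h2 : X.dim + e < M.dim
    · rw [comp_eq_zero hα hp h2, C.zero_comp]
      exact Submodule.zero_mem _
    refine Submodule.subset_span ⟨V, hV, X.dim + e - M.dim, e', by omega, _,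
      comp_mem' C _ _ hα hp (by omega), _, comp_mem' C _ _ hq hβ rfl, rfl⟩
  · refine hlin _ _ _ rfl ?_ z hz
    rintro _ ⟨D, e, he, b, hb, a, ha, rfl⟩
    have h1 : C.comp (C.comp α (C.comp b a)) β = C.comp (C.comp α b) (C.comp a β) := by
      simp only [C.comp_assoc]
    rw [h1]
    by_cases h2 : X.dim + e < M.dim
    · rw [comp_eq_zero hα hb h2, C.zero_comp]
      exact Submodule.zero_mem _
    refine Submodule.subset_span ⟨D, X.dim + e - M.dim, by omega, _,
      comp_mem' C _ _ hα hb (by omega), _, comp_mem' C _ _ ha hβ rfl, rfl⟩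

lemma tr_map {P Q : Submodule ℚ (CH (X.prod X))} {S : Set (CH (X.prod X))}
    (hP : P = Submodule.span ℚ S) (h : ∀ x ∈ S, tr C x ∈ Q) {x : CH (X.prod X)} (hx : x ∈ P) :
    tr C x ∈ Q := by
  subst hP
  refine Submodule.span_induction (p := fun x _ => tr C x ∈ Q) ?_ ?_ ?_ ?_ hx
  · exact h
  · rw [tr_zero]
    exact Submodule.zero_mem _
  · intro x y _ _ hx hy
    rw [tr_add]
    exact Submodule.add_mem _ hx hy
  · intro q x _ hx
    rw [tr_smul]
    exact Submodule.smul_mem _ _ hx

lemma tr_dec {x : CH (X.prod X)} (hx : x ∈ decomposable C X) : tr C x ∈ decomposable C X := by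
  refine tr_map (decomposable_eq (C := C) (X := X)) ?_ hx
  rintro _ ⟨i, j, hij, b, hb, a, ha, rfl⟩
  rw [tr_extProd]
  exact Submodule.subset_span ⟨j, i, by omega, a, ha, b, hb, rfl⟩

lemma tr_tPart {x : CH (X.prod X)} (hx : x ∈ tPart C X) : tr C x ∈ tPart C X := by
  refine tr_map rfl ?_ hx
  rintro _ ⟨V, hV, e, e', he, p, hp, q, hq, rfl⟩
  rw [tr_comp]
  exact Submodule.subset_span ⟨V, hV, e', e, by omega, _, tr_mem hq, _, tr_mem hp, rfl⟩

lemma tr_dPart {s : ℕ} {x : CH (X.prod X)} (hx : x ∈ dPart C X s) : tr C x ∈ dPartT C X s := by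
  refine tr_map rfl ?_ hx
  rintro _ ⟨D, e, he, b, hb, a, ha, rfl⟩
  rw [tr_comp]
  exact Submodule.subset_span ⟨D, e, he, _, tr_mem ha, _, tr_mem hb, rfl⟩

lemma tr_sup {s : ℕ} {x : CH (X.prod X)}
    (hx : x ∈ decomposable C X ⊔ tPart C X ⊔ dPart C X s) :
    tr C x ∈ decomposable C X ⊔ tPart C X ⊔ dPartT C X s := by
  obtain ⟨w, hw, z, hz, rfl⟩ := Submodule.mem_sup.1 hx
  obtain ⟨x, hx', y, hy, rfl⟩ := Submodule.mem_sup.1 hw
  rw [tr_add, tr_add]
  exact Submodule.add_mem_sup (Submodule.add_mem_sup (tr_dec hx') (tr_tPart hy)) (tr_dPart hz)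

/-- The elements of the ideal generated by the restrictions, with a decomposition of the diagonal
of `M` inserted after the restricted class. -/
theorem restr_right {s : ℕ} (j : X.toOver ⟶ M.toOver)
    (hΔ : C.Δ M ∈ decomposable C M ⊔ tPart C M ⊔ dPart C M s) {γ : CH (X.prod X)}
    (hγ : γ ∈ restrSpan C j) : γ ∈ decomposable C X ⊔ tPart C X ⊔ dPart C X s := by
  refine Submodule.span_induction
    (p := fun γ _ => γ ∈ decomposable C X ⊔ tPart C X ⊔ dPart C X s) ?_ ?_ ?_ ?_ hγ
  · rintro _ ⟨a, ha, b, hb, z, hz, rfl⟩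
    have h1 : C.ops.pull (sqHom j) z = C.comp (C.comp (graph C j) z) (graphT C j) :=
      pull_sq C j z
    have h2 : C.comp (C.comp a (graph C j)) z ∈ CHi (X.prod M) X.dim :=
      comp_mem' C _ _ (comp_mem' C _ _ ha (graph_mem j) (l := M.dim) (by omega)) hz (by omega)
    have h3 : C.comp (graphT C j) b ∈ CHi (M.prod X) M.dim :=
      comp_mem' C _ _ (graphT_mem j) hb rfl
    have h4 := insert_right (C := C) h2 h3 hΔ
    rw [C.comp_Δ] at h4
    rw [h1]
    convert h4 using 1
    simp only [C.comp_assoc]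
  · exact Submodule.zero_mem _
  · intro x y _ _ hx hy
    exact Submodule.add_mem _ hx hy
  · intro q x _ hx
    exact Submodule.smul_mem _ _ hx

/-- The elements of the ideal generated by the restrictions, with the transposed decomposition of
the diagonal of `M` inserted before the restricted class. -/
theorem restr_left {s : ℕ} (j : X.toOver ⟶ M.toOver)
    (hΔ : C.Δ M ∈ decomposable C M ⊔ tPart C M ⊔ dPart C M s) {γ : CH (X.prod X)}
    (hγ : γ ∈ restrSpan C j) : γ ∈ decomposable C X ⊔ tPart C X ⊔ dPartT C X s := by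
  refine Submodule.span_induction
    (p := fun γ _ => γ ∈ decomposable C X ⊔ tPart C X ⊔ dPartT C X s) ?_ ?_ ?_ ?_ hγ
  · rintro _ ⟨a, ha, b, hb, z, hz, rfl⟩
    have h1 : C.ops.pull (sqHom j) z = C.comp (C.comp (graph C j) z) (graphT C j) :=
      pull_sq C j z
    have h2 : C.comp z (C.comp (graphT C j) b) ∈ CHi (M.prod X) X.dim :=
      comp_mem' C _ _ hz (comp_mem' C _ _ (graphT_mem j) hb rfl) (by omega)
    have h3 : C.comp a (graph C j) ∈ CHi (X.prod M) M.dim :=
      comp_mem' C _ _ ha (graph_mem j) (by omega)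
    have h4 := tr_sup (insert_right (C := C) (tr_mem (C := C) h2) (tr_mem (C := C) h3) hΔ)
    rw [C.comp_Δ, ← tr_comp, tr_tr] at h4
    rw [h1]
    convert h4 using 1
    simp only [C.comp_assoc]
  · exact Submodule.zero_mem _
  · intro x y _ _ hx hy
    exact Submodule.add_mem _ hx hy
  · intro q x _ hx
    exact Submodule.smul_mem _ _ hx

end

end Pool.Agent.Helper97.SA
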