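import Mathlib
import Pool.Agent.Helper97.SA.Ideal

/-!
# Homologically trivial combinations of the diagonal and of restrictions
-/

universe u v w

open CategoryTheory AlgebraicGeometry Limits

namespace Pool.Agent.Helper97.SA

open Pool.Agent.Helper10 Pool.Agent.Helper10.SmProjVar Pool.Agent.Helper47.Chow
open Pool.Agent.Helper47.Desc Pool.Agent.Helper47.Spread Pool.Agent.Helper11.Murre

noncomputable section

variable {K : Type u} [Field K] {L : Type v} [Field L] [CharZero L]
  {W : WeilCohomology.{u, v, w} K L} {C : ChowTheory W} {X M : SmProjVar K}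
  (j : X.toOver ⟶ M.toOver)

/-- The span of the restrictions. -/
def pulls (C : ChowTheory W) {X M : SmProjVar K} (j : X.toOver ⟶ M.toOver) :
    Submodule ℚ (CH (X.prod X)) :=
  Submodule.span ℚ {γ | ∃ z ∈ CHi (M.prod M) X.dim, γ = C.ops.pull (sqHom j) z}

lemma pulls_le : pulls C j ≤ restrSpan C j := by
  refine Submodule.span_le.2 ?_
  rintro _ ⟨z, hz, rfl⟩
  exact pull_mem_restrSpan j hz

lemma hAct_pulls {z : CH (X.prod X)} (hz : z ∈ pulls C j) (x : W.H X) :
    hAct C z x ∈ LinearMap.range (pullL W j) := by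
  refine Submodule.span_induction (p := fun z _ => hAct C z x ∈ LinearMap.range (pullL W j))
    ?_ ?_ ?_ ?_ hz
  · rintro _ ⟨z, hz, rfl⟩
    have h1 : C.ops.pull (sqHom j) z = C.comp (C.comp (graph C j) z) (graphT C j) :=
      pull_sq C j z
    have h2 : C.comp (graph C j) z ∈ CHi (X.prod M) X.dim :=
      comp_mem' C _ _ (graph_mem j) hz (by omega)
    rw [h1, hAct_comp C _ _ h2 (graphT_mem j) (l := X.dim) rfl, hAct_graphT]
    exact ⟨_, rfl⟩
  · rw [hAct_zero_left]
    exact Submodule.zero_mem _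
  · intro z z' _ _ h h'
    rw [hAct_add_left]
    exact Submodule.add_mem _ h h'
  · intro q z _ h
    have h2 : hAct C (q • z) x = (q : L) • hAct C z x := by
      apply eq_of_tr
      intro y
      rw [tr_hAct, pairH_smul, smul_mul_assoc, (W.trace X).map_smul, tr_hAct]
    rw [h2]
    exact Submodule.smul_mem _ _ h

/-- If `H(M) → H(X)` is not surjective, the homologically trivial correspondences of the form
`c Δ + (j × j)^* z` lie in the ideal generated by the restrictions. -/
lemma restr_of_good (hvan : ∃ x : W.H X, x ∉ Set.range (W.pull j)) {γ : CH (X.prod X)}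
    (hγ : γ ∈ good C j) (h0 : C.ops.cl _ γ = 0) : γ ∈ restrSpan C j := by
  have h1 : ∃ c : ℚ, ∃ z ∈ pulls C j, γ = c • C.Δ X + z := by
    refine Submodule.span_induction
      (p := fun γ _ => ∃ c : ℚ, ∃ z ∈ pulls C j, γ = c • C.Δ X + z) ?_ ?_ ?_ ?_ hγ
    · rintro γ (rfl | ⟨z, hz, rfl⟩)
      · exact ⟨1, 0, Submodule.zero_mem _, by rw [one_smul, add_zero]⟩
      · exact ⟨0, _, Submodule.subset_span ⟨z, hz, rfl⟩, by rw [zero_smul, zero_add]⟩
    · exact ⟨0, 0, Submodule.zero_mem _, by rw [zero_smul, zero_add]⟩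
    · rintro _ _ _ _ ⟨c, z, hz, rfl⟩ ⟨c', z', hz', rfl⟩
      exact ⟨c + c', z + z', Submodule.add_mem _ hz hz', by rw [add_smul]; abel⟩
    · rintro q _ _ ⟨c, z, hz, rfl⟩
      exact ⟨q * c, q • z, Submodule.smul_mem _ _ hz, by rw [smul_add, mul_smul]⟩
  obtain ⟨c, z, hz, rfl⟩ := h1
  by_cases hc : c = 0
  · rw [hc, zero_smul, zero_add]
    exact pulls_le j hz
  · exfalso
    obtain ⟨x, hx⟩ := hvan
    apply hx
    obtain ⟨y, hy⟩ := hAct_pulls j (Submodule.smul_mem (pulls C j) (-c⁻¹) hz) x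
    refine ⟨y, ?_⟩
    have h5 : C.cl _ ((-c⁻¹) • z) = C.cl _ (C.Δ X) := by
      have h4 : C.cl _ (c • C.Δ X + z) = 0 := h0
      have h6 : (-c⁻¹) • z = C.Δ X + (-c⁻¹) • (c • C.Δ X + z) := by
        rw [smul_add, smul_smul, neg_mul, inv_mul_cancel₀ hc]
        module
      rw [h6, map_add, cl_smul, h4, smul_zero, add_zero]
    have h2 : hAct C ((-c⁻¹) • z) x = x := by
      conv_rhs => rw [← hAct_Δ C x]
      unfold hAct
      rw [h5]
    exact hy.trans h2

end

end Pool.Agent.Helper97.SA
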