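import Mathlib
import Pool.Agent.Helper97.SA.Good
import Pool.Agent.Helper47.Desc.ModIdeal

/-!
# Powers of homologically trivial correspondences lie in the ideal of restrictions
-/

universe u v w

open CategoryTheory AlgebraicGeometry Limits

namespace Pool.Agent.Helper97.SA

open Pool.Agent.Helper10 Pool.Agent.Helper10.SmProjVar Pool.Agent.Helper47.Chow
open Pool.Agent.Helper47.Desc Pool.Agent.Helper47.Spread Pool.Agent.Helper11.Murre

noncomputable section

variable {K : Type u} [Field K] {L : Type v} [Field L] [CharZero L]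
  {W : WeilCohomology.{u, v, w} K L} {C : ChowTheory W} {X M : SmProjVar K}
  (j : X.toOver ⟶ M.toOver)

/-- If the invariant homologically trivial correspondences are combinations of the diagonal and of
restrictions, every homologically trivial correspondence with a finite orbit has a power in the
ideal generated by the restrictions. -/
theorem pow_mem_of_finite_orbit (hC : IsEquivariant C) (Γ : Subgroup (SemiAut X))
    (hst : ∀ g ∈ Γ, ∀ γ ∈ restrSpan C j, (Pool.Agent.Helper47.Desc.sq g).chow γ ∈ restrSpan C j)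
    (hgood : ∀ γ ∈ CHi (X.prod X) X.dim,
      (∀ g ∈ Γ, (Pool.Agent.Helper47.Desc.sq g).chow γ = γ) → γ ∈ good C j)
    (hvan : ∃ x : W.H X, x ∉ Set.range (W.pull j)) (γ : CH (X.prod X))
    (hγ : γ ∈ CHi (X.prod X) X.dim) (h0 : C.ops.cl _ γ = 0)
    (hfin : (Set.range fun g : Γ => (Pool.Agent.Helper47.Desc.sq g.1).chow γ).Finite) :
    ∃ n, C.pow γ n ∈ restrSpan C j := by
  let ρ : Γ →* (Corr C X ≃+* Corr C X) := (corrRho hC X).comp Γ.subtype
  have hρ : ∀ (g : Γ) (r : Corr C X),
    (ρ g r).val = (Pool.Agent.Helper47.Desc.sq g.1).chow r.val := fun g r => rfl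
  have key := bergman_isaacs_mod ρ (homIdeal C X) (restrIdeal C j)
    ⟨fun x hx b => (homIdeal C X).mul_mem_right b hx, fun g x hx => ?_⟩
    ⟨fun x hx b => ?_, fun g x hx => hst g.1 g.2 _ hx⟩ ?_ ⟨γ, hγ⟩ h0 ?_
  · obtain ⟨n, hn⟩ := key
    refine ⟨n, ?_⟩
    let c : Corr C X := ⟨γ, hγ⟩
    have h1 : (c ^ n).val ∈ restrSpan C j := hn
    have h2 : (c ^ n).val = C.pow γ n := ChowTheory.pow_val c n
    rwa [h2] at h1
  · exact hC.cl _ _ _ hx
  · change (x * b).val ∈ restrSpan C j
    rw [Corr.mul_val]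
    exact comp_restrSpan j b.2 hx
  · intro x hx hinv
    refine restr_of_good j hvan (hgood x.val x.2 fun g hg => ?_) hx
    exact congrArg Corr.val (hinv ⟨g, hg⟩)
  · refine Set.Finite.of_finite_image (f := Corr.val) (hfin.subset ?_) fun a _ b _ => Corr.ext
    rintro _ ⟨_, ⟨g, rfl⟩, rfl⟩
    exact ⟨g, rfl⟩

variable {F : Type u} [Field F] [Algebra F K] {M₀ : SmProjVar F} {r : ℕ} {I : Type} [Fintype I]

/-- **Theorem A**, for `K` normal over `F(a)`. -/
theorem pow_mem_normal {S : Sections M₀ r I} (hsep : Separates S) {a : I → K}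
    (ha : AlgebraicIndependent F a) [Normal (IntermediateField.adjoin F (Set.range a)) K]
    (pM : M.toOver.left ⟶ M₀.toOver.left)
    (hM : IsPullback pM M.toOver.hom M₀.toOver.hom (specMap F K))
    [IsClosedImmersion j.left] (hX : IsZeroLocus S a X (j.left ≫ pM)) (hdim : M.dim = X.dim + r)
    (hC : IsEquivariant C) (hS : HasSupport C)
    (hvan : ∃ x : W.H X, x ∉ Set.range (W.pull j)) (γ : CH (X.prod X))
    (hγ : γ ∈ CHi (X.prod X) X.dim) (h0 : C.ops.cl _ γ = 0) :
    ∃ n, C.pow γ n ∈ restrSpan C j := by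
  have hA : IsAffineHom (j.left ≫ pM) := isAffineHom_comp pM hM j
  refine pow_mem_of_finite_orbit j hC (galGroup (F := F) a (j.left ≫ pM))
    (fun g hg γ hγ => restrSpan_stable j hC pM hM a g hg γ hγ)
    (fun γ hγ hinv => mem_good hsep ha pM hM j hX hdim hC hS γ hγ hinv) hvan γ hγ h0 ?_
  exact finite_orbit (fun g : galGroup (F := F) a (j.left ≫ pM) =>
    Pool.Agent.Helper47.Desc.sq g.1) (finiteOrbits_galGroup hX) γ

/-- **Theorem A**, for `K` algebraically closed. -/
theorem pow_mem_closed [IsAlgClosed K] {S : Sections M₀ r I} (hsep : Separates S) {a : I → K}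
    (ha : AlgebraicIndependent F a)
    (pM : M.toOver.left ⟶ M₀.toOver.left)
    (hM : IsPullback pM M.toOver.hom M₀.toOver.hom (specMap F K))
    [IsClosedImmersion j.left] (hX : IsZeroLocus S a X (j.left ≫ pM)) (hdim : M.dim = X.dim + r)
    (hC : IsEquivariant C) (hS : HasSupport C)
    (hvan : ∃ x : W.H X, x ∉ Set.range (W.pull j)) (γ : CH (X.prod X))
    (hγ : γ ∈ CHi (X.prod X) X.dim) (h0 : C.ops.cl _ γ = 0) :
    ∃ n, C.pow γ n ∈ restrSpan C j := by
  have hA : IsAffineHom (j.left ≫ pM) := isAffineHom_comp pM hM j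
  obtain ⟨z, hz, rfl⟩ := id hγ
  obtain ⟨m, b, hb, hba, hgen⟩ := exists_generic_family ha hX z
  have hX' := isZeroLocus_extend hX m b hba
  have hsep' := separates_extend hsep m
  refine pow_mem_of_finite_orbit j hC (galGroup (F := F) b (j.left ≫ pM))
    (fun g hg γ hγ => restrSpan_stable j hC pM hM b g hg γ hγ)
    (fun γ hγ hinv => mem_good2 hsep' hb pM hM j hX' hdim hC hS γ hγ hinv) hvan _ hγ h0 ?_
  refine finite_orbit_cls (sqPi (galGroup (F := F) b (j.left ≫ pM))) z fun y hy => ?_
  have h1 : (X.prod X).pointDim y = X.dim := by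
    have h1 := hz y hy
    have h2 : (X.prod X).dim = X.dim + X.dim := rfl
    omega
  by_cases hx : theta (j.left ≫ pM) hX.w y ∈ Set.range (diag M₀).left
  · have h2 := mem_range_diag hX y hx
    refine (Set.finite_singleton y).subset ?_
    rintro _ ⟨g, rfl⟩
    have h3 : theta (j.left ≫ pM) hX.w ((Pool.Agent.Helper47.Desc.sq g.1).sch y) =
        theta (j.left ≫ pM) hX.w y :=
      theta_sq_apply b (j.left ≫ pM) hX.w g.1 g.2 y
    have h4 : (Pool.Agent.Helper47.Desc.sq g.1).sch y ∈ Set.range (diag X).left := by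
      refine mem_range_diag hX _ ?_
      rw [h3]
      exact hx
    have h5 : (X.prod X).pointDim ((Pool.Agent.Helper47.Desc.sq g.1).sch y) = X.dim :=
      (pointDim_pt (Pool.Agent.Helper47.Desc.sq g.1) y).trans h1
    exact (eq_diag_genericPt W X _ h4 h5).trans (eq_diag_genericPt W X y h2 h1).symm
  · exact (local_package2 hb hX' _ (hasChart_of_sepAt hX' _
      (sepAt_extend (hsep _ hx) m))).2.1 y rfl (hgen y hy (hsep _ hx))

end

end Pool.Agent.Helper97.SA
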