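import Mathlib
import Pool.Agent.Helper97.SA.Insert
import Pool.Agent.Helper97.SA.ThmA

/-!
# Nilpotence for sections of varieties with a decomposition of the diagonal
-/

universe u v w

open CategoryTheory AlgebraicGeometry Limits

namespace Pool.Agent.Helper97.SA

open Pool.Agent.Helper10 Pool.Agent.Helper10.SmProjVar Pool.Agent.Helper47.Chow
open Pool.Agent.Helper11.Murre Pool.Agent.Helper47.Desc
open Pool.Agent.Helper47.Spread (NilRing sqHom)

noncomputable section

variable {K : Type u} [Field K] {L : Type v} [Field L] [CharZero L]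
  {W : WeilCohomology.{u, v, w} K L}

/-- Homologically trivial divisor classes on a product are sums of pull-backs from the factors. -/
def Seesaw (C : ChowTheory W) : Prop :=
  ∀ D D' : SmProjVar K, ∀ g ∈ CHi (D.prod D') 1, C.ops.cl _ g = 0 →
    ∃ a ∈ CHi D 1, ∃ b ∈ CHi D' 1, g = C.ops.pull (fst D D') a + C.ops.pull (snd D D') b

variable {C : ChowTheory W} {X M D D' : SmProjVar K}

lemma comp_comp_extProd' {n : ℕ} {α : CH (X.prod D)} {β : CH (D'.prod X)} {b : CH D} {a : CH D'}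
    {i j m : ℕ} (hα : α ∈ CHi (X.prod D) m) (hβ : β ∈ CHi (D'.prod X) n) (hb : b ∈ CHi D j)
    (ha : a ∈ CHi D' i) (h : m + n + i + j = X.dim + D.dim + D'.dim) :
    C.comp (C.comp α (extProd C b a)) β ∈ decomposable C X := by
  rw [comp_extProd_left, comp_extProd]
  by_cases h1 : j + m < D.dim
  · rw [act_eq_zero (C := C) (tr_mem hα) hb h1, extProd_zero_left]
    exact Submodule.zero_mem _
  by_cases h2 : i + n < D'.dim
  · rw [act_eq_zero (C := C) hβ ha h2, extProd_zero]
    exact Submodule.zero_mem _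
  refine Submodule.subset_span ⟨i + n - D'.dim, j + m - D.dim, by omega, _,
    act_mem' C _ (tr_mem hα) b hb (l := j + m - D.dim) (by omega), _,
    act_mem' C _ hβ a ha (l := i + n - D'.dim) (by omega), rfl⟩

lemma one_mem_zero (W : WeilCohomology.{u, v, w} K L) (X : SmProjVar K) : one X ∈ CHi X 0 :=
  ChowTheory.one_mem_iff (pointDim_genericPt W X)

lemma extProd_one (a : CH D) : extProd C a (one D') = C.pull (fst D D') a := by
  unfold extProd
  rw [C.pull_one, C.mul_one]

lemma one_extProd (b : CH D') : extProd C (one D) b = C.pull (snd D D') b := by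
  unfold extProd
  rw [C.pull_one, C.one_mul]

/-- The middle factor. -/
lemma middle {s e e' : ℕ} (hs : X.dim ≤ 2 * s ∨ X.dim = 2 * s + 1 ∧ Seesaw C)
    (he : e + s = X.dim) (he' : e' + s = X.dim) {a : CH (X.prod D)} {b : CH (D.prod X)}
    {x : CH (X.prod X)} {b' : CH (X.prod D')} {a' : CH (D'.prod X)}
    (ha : a ∈ CHi (X.prod D) (D.dim + s)) (hb : b ∈ CHi (D.prod X) e) (hx : HTriv C X x)
    (hb' : b' ∈ CHi (X.prod D') e') (ha' : a' ∈ CHi (D'.prod X) (D'.dim + s)) :
    C.comp (C.comp (C.comp a b) x) (C.comp b' a') ∈ decomposable C X := by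
  have h1 : C.comp (C.comp (C.comp a b) x) (C.comp b' a') =
      C.comp (C.comp a (C.comp (C.comp b x) b')) a' := by
    simp only [C.comp_assoc]
  rw [h1]
  have hbx : C.comp b x ∈ CHi (D.prod X) e := comp_mem' C _ _ hb hx.1 rfl
  have hcl : C.cl _ (C.comp (C.comp b x) b') = 0 :=
    C.cl_comp_of_left _ _ (C.cl_comp_of_right _ _ hx.2)
  rcases lt_or_ge X.dim (2 * s) with h2 | h2
  · rw [comp_eq_zero hbx hb' (by omega), C.comp_zero, C.zero_comp]
    exact Submodule.zero_mem _
  rcases hs with hs | ⟨hs, hsee⟩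
  · rw [eq_zero_of_codim_zero C _ (comp_mem' C _ _ hbx hb' (l := 0) (by omega)) hcl,
      C.comp_zero, C.zero_comp]
    exact Submodule.zero_mem _
  · obtain ⟨a₀, ha₀, b₀, hb₀, hg⟩ := hsee D D' _
      (comp_mem' C _ _ hbx hb' (l := 1) (by omega)) hcl
    have h3 : C.comp (C.comp b x) b' = extProd C a₀ (one D') + extProd C (one D) b₀ := by
      rw [extProd_one, one_extProd]
      exact hg
    rw [h3, C.comp_add, C.add_comp]
    refine Submodule.add_mem _ ?_ ?_
    · exact comp_comp_extProd' ha ha' ha₀ (one_mem_zero W D') (by omega)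
    · exact comp_comp_extProd' ha ha' (one_mem_zero W D) hb₀ (by omega)

lemma chi_dec : ∀ x ∈ decomposable C X, x ∈ CHi (X.prod X) X.dim := by
  intro x hx
  have h : decomposable C X ≤ CHiL (X.prod X) X.dim := by
    refine Submodule.span_le.2 ?_
    rintro _ ⟨i, j, hij, b, hb, a, ha, rfl⟩
    have := extProd_mem (C := C) hb ha
    rw [show j + i = X.dim by omega] at this
    exact this
  exact h hx

lemma dPart_le {s : ℕ} : ∀ x ∈ dPart C X s, x ∈ CHi (X.prod X) X.dim := by
  intro x hx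
  have h : dPart C X s ≤ CHiL (X.prod X) X.dim := by
    refine Submodule.span_le.2 ?_
    rintro _ ⟨D, e, he, b, hb, a, ha, rfl⟩
    exact comp_mem' C _ _ hb ha (by omega)
  exact h hx

lemma dPartT_le {s : ℕ} : ∀ x ∈ dPartT C X s, x ∈ CHi (X.prod X) X.dim := by
  intro x hx
  have h : dPartT C X s ≤ CHiL (X.prod X) X.dim := by
    refine Submodule.span_le.2 ?_
    rintro _ ⟨D, e, he, a, ha, b, hb, rfl⟩
    exact comp_mem' C _ _ ha hb (by omega)
  exact h hx

lemma tPart_comp {w c : CH (X.prod X)} (hw : w ∈ tPart C X) (hc : c ∈ CHi (X.prod X) X.dim) :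
    C.comp w c ∈ tPart C X := by
  refine Submodule.span_induction (p := fun w _ => C.comp w c ∈ tPart C X) ?_ ?_ ?_ ?_ hw
  · rintro _ ⟨V, hV, e, e', he, p, hp, q, hq, rfl⟩
    rw [C.comp_assoc]
    exact Submodule.subset_span ⟨V, hV, e, e', he, p, hp, _, comp_mem' C _ _ hq hc rfl, rfl⟩
  · rw [C.zero_comp]
    exact Submodule.zero_mem _
  · intro x y _ _ hx hy
    rw [C.add_comp]
    exact Submodule.add_mem _ hx hy
  · intro q x _ hx
    rw [C.smul_comp]
    exact Submodule.smul_mem _ _ hx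

lemma comp_tPart {w c : CH (X.prod X)} (hw : w ∈ tPart C X) (hc : c ∈ CHi (X.prod X) X.dim) :
    C.comp c w ∈ tPart C X := by
  refine Submodule.span_induction (p := fun w _ => C.comp c w ∈ tPart C X) ?_ ?_ ?_ ?_ hw
  · rintro _ ⟨V, hV, e, e', he, p, hp, q, hq, rfl⟩
    rw [← C.comp_assoc]
    exact Submodule.subset_span ⟨V, hV, e, e', he, _, comp_mem' C _ _ hc hp (by omega), q, hq,
      rfl⟩
  · rw [C.comp_zero]
    exact Submodule.zero_mem _
  · intro x y _ _ hx hy
    rw [C.comp_add]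
    exact Submodule.add_mem _ hx hy
  · intro q x _ hx
    rw [C.comp_smul]
    exact Submodule.smul_mem _ _ hx

lemma dec_comp {z c : CH (X.prod X)} (hc : c ∈ CHi (X.prod X) X.dim)
    (hz : z ∈ decomposable C X) : C.comp z c ∈ decomposable C X := by
  refine Submodule.span_induction (p := fun z _ => C.comp z c ∈ decomposable C X) ?_ ?_ ?_ ?_ hz
  · rintro _ ⟨i, j, hij, b, hb, a, ha, rfl⟩
    have h1 : C.comp (extProd C b a) c ∈ decomposable C X := by
      rw [comp_extProd]
      exact Submodule.subset_span ⟨i, j, hij, b, hb, _, act_mem' C _ hc a ha rfl, rfl⟩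
    exact h1
  · rw [C.zero_comp]
    exact Submodule.zero_mem _
  · intro x y _ _ hx hy
    rw [C.add_comp]
    exact Submodule.add_mem _ hx hy
  · intro q x _ hx
    rw [C.smul_comp]
    exact Submodule.smul_mem _ _ hx

lemma tt_comp {w c : CH (X.prod X)} (hw : w ∈ decomposable C X ⊔ tPart C X)
    (hc : c ∈ CHi (X.prod X) X.dim) : C.comp w c ∈ decomposable C X ⊔ tPart C X := by
  obtain ⟨x, hx, y, hy, rfl⟩ := Submodule.mem_sup.1 hw
  rw [C.add_comp]
  exact Submodule.add_mem_sup (dec_comp hc hx) (tPart_comp hy hc)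

lemma comp_tt {w c : CH (X.prod X)} (hw : w ∈ decomposable C X ⊔ tPart C X)
    (hc : c ∈ CHi (X.prod X) X.dim) : C.comp c w ∈ decomposable C X ⊔ tPart C X := by
  obtain ⟨x, hx, y, hy, rfl⟩ := Submodule.mem_sup.1 hw
  rw [C.comp_add]
  exact Submodule.add_mem_sup (comp_dec hc hx) (comp_tPart hy hc)

/-- The cube of a homologically trivial correspondence with both decompositions. -/
theorem cube_mem {s : ℕ} (hs : X.dim ≤ 2 * s ∨ X.dim = 2 * s + 1 ∧ Seesaw C)
    {x : CH (X.prod X)} (hx : HTriv C X x)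
    (h1 : x ∈ decomposable C X ⊔ tPart C X ⊔ dPart C X s)
    (h2 : x ∈ decomposable C X ⊔ tPart C X ⊔ dPartT C X s) :
    C.comp (C.comp x x) x ∈ decomposable C X ⊔ tPart C X := by
  obtain ⟨w₃, hw₃, v₃, hv₃, e₃⟩ := Submodule.mem_sup.1 h1
  obtain ⟨w₁, hw₁, v₁, hv₁, e₁⟩ := Submodule.mem_sup.1 h2
  have hv₁' := dPartT_le v₁ hv₁
  have h3 : C.comp (C.comp x x) x = C.comp (C.comp w₁ x) x +
      (C.comp (C.comp v₁ x) w₃ + C.comp (C.comp v₁ x) v₃) := by
    rw [← C.comp_add, e₃, ← C.add_comp, ← C.add_comp, e₁]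
  rw [h3]
  refine Submodule.add_mem _ (tt_comp (tt_comp hw₁ hx.1) hx.1) (Submodule.add_mem _ ?_ ?_)
  · exact comp_tt hw₃ (C.comp_mem _ _ hv₁' hx.1)
  · refine Submodule.mem_sup_left ?_
    refine Submodule.span_induction
      (p := fun v₁ _ => C.comp (C.comp v₁ x) v₃ ∈ decomposable C X) ?_ ?_ ?_ ?_ hv₁
    · rintro _ ⟨D, e, he, a, ha, b, hb, rfl⟩
      refine Submodule.span_induction
        (p := fun v₃ _ => C.comp (C.comp (C.comp a b) x) v₃ ∈ decomposable C X)
        ?_ ?_ ?_ ?_ hv₃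
      · rintro _ ⟨D', e', he', b', hb', a', ha', rfl⟩
        exact middle hs he he' ha hb hx hb' ha'
      · rw [C.comp_zero]
        exact Submodule.zero_mem _
      · intro y z _ _ hy hz
        rw [C.comp_add]
        exact Submodule.add_mem _ hy hz
      · intro q y _ hy
        rw [C.comp_smul]
        exact Submodule.smul_mem _ _ hy
    · rw [C.zero_comp, C.zero_comp]
      exact Submodule.zero_mem _
    · intro y z _ _ hy hz
      rw [C.add_comp, C.add_comp]
      exact Submodule.add_mem _ hy hz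
    · intro q y _ hy
      rw [C.smul_comp, C.smul_comp]
      exact Submodule.smul_mem _ _ hy

/-- The products of the elements of `decomposable ⊔ tPart` with homologically trivial
correspondences lie in nilpotent ideals. -/
lemma nilMem_comp (y : Corr C X) (hy : C.ops.cl _ y.val = 0) {t : CH (X.prod X)}
    (ht : t ∈ decomposable C X ⊔ tPart C X) :
    ∃ c : Corr C X, c.val = C.comp t y.val ∧ NilMem c := by
  have hlin : ∀ (P : Submodule ℚ (CH (X.prod X))) (S : Set (CH (X.prod X))),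
      P = Submodule.span ℚ S →
      (∀ x ∈ S, ∃ c : Corr C X, c.val = C.comp x y.val ∧ NilMem c) →
        ∀ x ∈ P, ∃ c : Corr C X, c.val = C.comp x y.val ∧ NilMem c := by
    rintro P S rfl h x hx
    refine Submodule.span_induction
      (p := fun x _ => ∃ c : Corr C X, c.val = C.comp x y.val ∧ NilMem c) ?_ ?_ ?_ ?_ hx
    · intro x hx
      exact h x hx
    · refine ⟨0, ?_, nilMem_zero⟩
      rw [C.zero_comp]
      rfl
    · rintro x x' _ _ ⟨c, hc, hc'⟩ ⟨d, hd, hd'⟩
      exact ⟨c + d, by rw [Corr.add_val, hc, hd, C.add_comp], hc'.add hd'⟩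
    · rintro q x _ ⟨c, hc, hc'⟩
      refine ⟨q • c, by rw [corr_smul_val, hc, C.smul_comp], ?_⟩
      rw [Algebra.smul_def]
      exact hc'.mul_left _
  obtain ⟨a, ha, b, hb, rfl⟩ := Submodule.mem_sup.1 ht
  obtain ⟨c, hc, hc'⟩ := hlin _ _ rfl (by
    rintro _ ⟨i, j, hij, b, hb, a, ha, rfl⟩
    have h1 : C.comp (extProd C b a) y.val ∈ decomposable C X :=
      dec_comp y.2 (Submodule.subset_span ⟨i, j, hij, b, hb, a, ha, rfl⟩)
    exact ⟨⟨_, chi_dec _ h1⟩, rfl, decIdeal C X, nilIdeal_decIdeal, h1,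
      C.cl_comp_of_right _ _ hy⟩) a ha
  obtain ⟨d, hd, hd'⟩ := hlin _ _ rfl (by
    rintro _ ⟨V, hV, e, e', he, p, hp, q, hq, rfl⟩
    have h2 : C.comp p q ∈ CHi (X.prod X) X.dim := comp_mem' C _ _ hp hq (by omega)
    exact ⟨⟨_, C.comp_mem _ _ h2 y.2⟩, rfl, viaIdeal C X V e, nilIdeal_viaIdeal e hV,
      chain_comp (comp_mem_chain he hp hq) y.2, C.cl_comp_of_right _ _ hy⟩) b hb
  exact ⟨c + d, by rw [Corr.add_val, hc, hd, C.add_comp], hc'.add hd'⟩

/-- Homologically trivial correspondences with a power in the ideal of restrictions are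
nilpotent if the diagonal of `M` has a suitable decomposition. -/
theorem nilpotent_of_restr {s : ℕ} (j : X.toOver ⟶ M.toOver)
    (hΔ : C.Δ M ∈ decomposable C M ⊔ tPart C M ⊔ dPart C M s)
    (hs : X.dim ≤ 2 * s ∨ X.dim = 2 * s + 1 ∧ Seesaw C) (γ : CH (X.prod X))
    (hγ : γ ∈ CHi (X.prod X) X.dim) (h0 : C.ops.cl _ γ = 0)
    (hp : ∃ n, C.pow γ n ∈ restrSpan C j) : ∃ n, C.pow γ n = 0 := by
  obtain ⟨n, hn⟩ := hp
  let r : Corr C X := ⟨γ, hγ⟩
  have hr : r ∈ homIdeal C X := h0
  have hn' : r ^ n ∈ restrIdeal C j := by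
    change (r ^ n).val ∈ restrSpan C j
    have h2 : (r ^ n).val = C.pow γ n := ChowTheory.pow_val r n
    rwa [h2]
  let x : Corr C X := r ^ (n + 1)
  have hx1 : x ∈ restrIdeal C j := by
    change r ^ (n + 1) ∈ restrIdeal C j
    rw [pow_succ']
    exact Ideal.mul_mem_left _ _ hn'
  have hx2 : x ∈ homIdeal C X := by
    change r ^ (n + 1) ∈ homIdeal C X
    rw [pow_succ]
    exact Ideal.mul_mem_left _ _ hr
  have hx3 := cube_mem hs (x := x.val) ⟨x.2, hx2⟩ (restr_right j hΔ hx1) (restr_left j hΔ hx1)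
  let y : Corr C X := x * (x * x)
  have hy1 : y.val ∈ decomposable C X ⊔ tPart C X := hx3
  have hy2 : y ∈ homIdeal C X := Ideal.mul_mem_left _ _ (Ideal.mul_mem_left _ _ hx2)
  obtain ⟨c, hc, hc'⟩ := nilMem_comp y hy2 hy1
  have h4 : c = y * y := Corr.ext hc
  rw [h4] at hc'
  obtain ⟨m, hm⟩ := hc'.isNilpotent
  have h5 : r ^ ((n + 1) * 3 * 2 * m) = 0 := by
    have h6 : y * y = r ^ ((n + 1) * 3 * 2) := by
      change (x * (x * x)) * (x * (x * x)) = _
      rw [pow_mul, pow_mul]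
      change _ = (x ^ 3) ^ 2
      noncomm_ring
    rw [pow_mul, ← h6, hm]
  refine ⟨(n + 1) * 3 * 2 * m, ?_⟩
  have h7 : (r ^ ((n + 1) * 3 * 2 * m)).val = C.pow γ ((n + 1) * 3 * 2 * m) :=
    ChowTheory.pow_val r _
  rw [← h7, h5]
  rfl

end

end Pool.Agent.Helper97.SA
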