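import Mathlib
import Pool.Agent.Helper97.SA.Core

/-!
# Correspondences on generic zero loci in arbitrary varieties: the theorems
-/

universe u v w

open CategoryTheory AlgebraicGeometry Limits

namespace Pool.Agent.Helper97.SA

open Pool.Agent.Helper10 Pool.Agent.Helper10.SmProjVar Pool.Agent.Helper47.Chow
open Pool.Agent.Helper11.Murre Pool.Agent.Helper47.Desc Pool.Agent.Helper47.Spread

noncomputable section

variable {F K : Type u} [Field F] [Field K] [Algebra F K] {M₀ : SmProjVar F} {r : ℕ} {I : Type}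
  [Fintype I] {L : Type v} [Field L] [CharZero L] {W : WeilCohomology.{u, v, w} K L}

/-- **Theorem A.** -/
theorem pow_mem {S : Pool.Agent.Helper47.Spread.Sections M₀ r I} (hsep : Separates S) {a : I → K}
    (ha : AlgebraicIndependent F a)
    (hK : IsAlgClosed K ∨ Normal (IntermediateField.adjoin F (Set.range a)) K)
    {M X : SmProjVar K} (pM : M.toOver.left ⟶ M₀.toOver.left)
    (hM : IsPullback pM M.toOver.hom M₀.toOver.hom (specMap F K)) (j : X.toOver ⟶ M.toOver)
    [IsClosedImmersion j.left] (hX : IsZeroLocus S a X (j.left ≫ pM)) (hdim : M.dim = X.dim + r)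
    {C : ChowTheory W} (hC : IsEquivariant C) (hS : HasSupport C)
    (hvan : ∃ x : W.H X, x ∉ Set.range (W.pull j)) (γ : CH (X.prod X))
    (hγ : γ ∈ CHi (X.prod X) X.dim) (h0 : C.ops.cl _ γ = 0) :
    ∃ n, C.pow γ n ∈ restrSpan C j := by
  rcases hK with hK | hK
  · exact pow_mem_closed j hsep ha pM hM hX hdim hC hS hvan γ hγ h0
  · exact pow_mem_normal j hsep ha pM hM hX hdim hC hS hvan γ hγ h0

/-- **Theorem B.** -/
theorem nilHom {S : Pool.Agent.Helper47.Spread.Sections M₀ r I} (hsep : Separates S) {a : I → K}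
    (ha : AlgebraicIndependent F a)
    (hK : IsAlgClosed K ∨ Normal (IntermediateField.adjoin F (Set.range a)) K)
    {M X : SmProjVar K} (pM : M.toOver.left ⟶ M₀.toOver.left)
    (hM : IsPullback pM M.toOver.hom M₀.toOver.hom (specMap F K)) (j : X.toOver ⟶ M.toOver)
    [IsClosedImmersion j.left] (hX : IsZeroLocus S a X (j.left ≫ pM)) (hdim : M.dim = X.dim + r)
    {C : ChowTheory W} (hC : IsEquivariant C) (hS : HasSupport C)
    (hvan : ∃ x : W.H X, x ∉ Set.range (W.pull j)) {s : ℕ}
    (hΔ : C.Δ M ∈ decomposable C M ⊔ tPart C M ⊔ dPart C M s)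
    (hs : X.dim ≤ 2 * s ∨ X.dim = 2 * s + 1 ∧ Seesaw C) : NilHom C X :=
  fun γ hγ h0 => nilpotent_of_restr j hΔ hs γ hγ h0
    (pow_mem hsep ha hK pM hM j hX hdim hC hS hvan γ hγ h0)

end

end Pool.Agent.Helper97.SA
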