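import Mathlib
import Pool.Agent.Helper47.Zero.Bridge
import Pool.Agent.Helper97.SA.Main
import Pool.Agent.Helper97.SA.St

/-!
# Sections of arbitrary varieties: the main theorem with the definitions of the statement
-/

universe u v w

open CategoryTheory AlgebraicGeometry Limits

namespace Pool.Agent.Helper97.SA

open Pool.Agent.Helper10 Pool.Agent.Helper10.SmProjVar Pool.Agent.Helper47.Chow
open Pool.Agent.Helper47.Desc (IsEquivariant)
open Pool.Agent.Helper47.Zero

theorem main {F K : Type u} [Field F] [Field K] [Algebra F K] {M₀ : SmProjVar F} {r : ℕ}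
    {I : Type} [Fintype I] (S : Sections M₀.toOver.left r I) (hsep : Separates S) (a : I → K)
    (ha : AlgebraicIndependent F a)
    (hK : IsAlgClosed K ∨ Normal (IntermediateField.adjoin F (Set.range a)) K)
    (M X : SmProjVar K) (pM : M.toOver.left ⟶ M₀.toOver.left)
    (hM : IsPullback pM M.toOver.hom M₀.toOver.hom (specMap F K)) (j : X.toOver ⟶ M.toOver)
    [IsClosedImmersion j.left]
    (hX : IsZeroLocus S a M₀.toOver.hom (specMap F K) (j.left ≫ pM) X.toOver.hom)
    (hdim : M.dim = X.dim + r)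
    {L : Type v} [Field L] [CharZero L] {W : WeilCohomology.{u, v, w} K L}
    (C : ChowTheory W) (hC : IsEquivariant C) (hS : HasSupport C)
    (hvan : ∃ x : W.H X, x ∉ Set.range (W.pull j)) :
    (∀ γ : CH (X.prod X), HomTriv C γ → ∃ n, 0 < n ∧ InIdeal C j (prodSeq C (fun _ => γ) n)) ∧
    ∀ s : ℕ, Decomposes C M s → (X.dim ≤ 2 * s ∨ X.dim = 2 * s + 1 ∧ HasSeesaw C) →
      NilHom C X ∧ (HasKunneth C X → ∃ π, IsCK C X π) ∧
      (∀ i π π', IsCK C X π → IsCK C X π' → C.MurreD X π i → C.MurreD X π' i) ∧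
      (AlgOff C X → ∀ i, (∀ π, IsCK C X π → C.MurreD X π i) ↔
        (2 * i ≤ X.dim → ∀ a ∈ CHi X i, C.ops.cl X a = 0 → a = 0)) ∧
      (HasLefschetz C X → ∀ π, IsCK C X π →
        ((∀ i, 2 * i ≤ X.dim → C.MurreD X π i) → ∀ i, C.MurreD X π i) ∧
        (X.dim ≤ 3 → HasPicard C X → ∀ i, C.MurreD X π i)) := by
  have hA : ∀ γ : CH (X.prod X), HomTriv C γ →
      ∃ n, 0 < n ∧ InIdeal C j (prodSeq C (fun _ => γ) n) := by
    rintro γ ⟨hγ, h0⟩
    obtain ⟨n, hn⟩ := pow_mem (separates_old hsep) ha hK pM hM j (isZeroLocus_old hX) hdim hC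
      (hasSupport_old hS) hvan γ hγ h0
    refine ⟨n + 1, Nat.succ_pos n, ?_⟩
    rw [prodSeq_const]
    exact restrSpan_comp j hγ hn
  refine ⟨hA, fun s hs hd => ?_⟩
  have hΔ : C.Δ M ∈ Helper47.Desc.decomposable C M ⊔ tPart C M ⊔ dPart C M s := by
    refine Submodule.span_le.2 ?_ hs
    rintro x ((hx | ⟨V, hV, hx⟩) | hx)
    · exact Submodule.mem_sup_left (Submodule.mem_sup_left (Submodule.subset_span hx))
    · exact Submodule.mem_sup_left (Submodule.mem_sup_right
        (Submodule.subset_span ⟨V, nilRing_old hV, hx⟩))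
    · exact Submodule.mem_sup_right (Submodule.subset_span hx)
  have h : Helper47.Desc.NilHom C X := nilHom (separates_old hsep) ha hK pM hM j
    (isZeroLocus_old hX) hdim hC (hasSupport_old hS) hvan hΔ hd
  refine ⟨nilHom_iff.mpr h, fun hK => ?_, fun i π π' hπ hπ' hD =>
    Helper47.Desc.murreD_of_nilHom h i (isCK_iff.mp hπ) (isCK_iff.mp hπ') hD, fun hA i => ?_,
    fun hL π hπ => ⟨Helper11.Murre.murreD_of_half h hL (isCK_iff.mp hπ), fun hd hP =>
      Helper11.Murre.murreD_of_dim_le_three h hL hP hd (isCK_iff.mp hπ)⟩⟩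
  · obtain ⟨π, hπ⟩ := Helper11.Murre.exists_isCK_of_kunneth h hK
    exact ⟨π, isCK_iff.mpr hπ⟩
  · have hA : C.AlgebraicOffMiddle X := fun k hk x hx => hA k hk x hx
    rw [← Helper47.Desc.offMiddle_of_nilHom h hA i]
    exact ⟨fun h' π hπ => h' π (isCK_iff.mpr hπ), fun h' π hπ => h' π (isCK_iff.mp hπ)⟩

end Pool.Agent.Helper97.SA
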